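import Mathlib

set_option autoImplicit false

open Matrix Finset Filter Topology
open scoped Matrix.Norms.Elementwise

namespace Pool.Agent.H.MP_4e5d1f_mp

variable {n : Type} [Fintype n] [DecidableEq n]

/-- one Lindblad term -/
noncomputable def DL (L X : Matrix n n ℂ) : Matrix n n ℂ :=
  L * X * Lᴴ - (1 / 2 : ℂ) • (Lᴴ * L * X + X * (Lᴴ * L))

/-- diagonal block sum in a rotated basis -/
noncomputable def q (U : Matrix n n ℂ) (A : Finset n) (X : Matrix n n ℂ) : ℝ :=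
  ∑ a ∈ A, ((Uᴴ * X * U) a a).re

/-- truncated Ky Fan sum -/
noncomputable def k (j : ℕ) (X : Matrix n n ℂ) : ℝ :=
  sSup {r | ∃ U ∈ unitaryGroup n ℂ, ∃ A : Finset n, #A ≤ j ∧ r = q U A X}

theorem u1 {U : Matrix n n ℂ} (h : U ∈ unitaryGroup n ℂ) : Uᴴ * U = 1 :=
  mem_unitaryGroup_iff'.1 h

theorem u2 {U : Matrix n n ℂ} (h : U ∈ unitaryGroup n ℂ) : U * Uᴴ = 1 :=
  mem_unitaryGroup_iff.1 h

theorem dg1 (M : Matrix n n ℂ) (l : n → ℝ) (a : n) :
    ((M * diagonal (fun i => (l i : ℂ)) * Mᴴ) a a).re = ∑ i, ‖M a i‖ ^ 2 * l i := by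
  rw [mul_apply, Complex.re_sum]
  refine sum_congr rfl fun i _ => ?_
  rw [mul_diagonal, conjTranspose_apply, mul_right_comm, Complex.star_def, Complex.mul_conj,
    Complex.normSq_eq_norm_sq]
  norm_cast

theorem row (M : Matrix n n ℂ) (a : n) : ((M * Mᴴ) a a).re = ∑ i, ‖M a i‖ ^ 2 := by
  simpa using dg1 M (fun _ => 1) a

theorem col (M : Matrix n n ℂ) (a : n) : (Mᴴ * M) a a = ((∑ i, ‖M i a‖ ^ 2 : ℝ) : ℂ) := by
  rw [mul_apply, Complex.ofReal_sum]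
  refine sum_congr rfl fun i _ => ?_
  rw [conjTranspose_apply, mul_comm, Complex.star_def, Complex.mul_conj, Complex.normSq_eq_norm_sq]

theorem opt (l : n → ℝ) (j : ℕ) : ∃ A : Finset n, #A ≤ j ∧ ∃ θ : ℝ, 0 ≤ θ ∧ (∀ i ∈ A, θ ≤ l i) ∧
    (∀ i ∉ A, l i ≤ θ) ∧ (#A < j → θ = 0) ∧ (A.Nonempty → #A = j → ∃ i ∈ A, l i = θ) := by
  obtain ⟨A, hA, hm⟩ := exists_max_image (univ.filter fun A : Finset n => #A ≤ j)
    (fun A => ∑ i ∈ A, l i) ⟨∅, by simp⟩
  simp only [mem_filter, mem_univ, true_and] at hA hm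
  have h0 : ∀ i ∈ A, 0 ≤ l i := fun i hi => by
    have := hm (A.erase i) ((card_le_card (erase_subset _ _)).trans hA)
    rw [← add_sum_erase A l hi] at this
    linarith
  refine ⟨A, hA, ?_⟩
  rcases hA.lt_or_eq with h | h
  · refine ⟨0, le_rfl, h0, fun i hi => ?_, fun _ => rfl, fun _ h' => absurd h' h.ne⟩
    have := hm (insert i A) (by rw [card_insert_of_notMem hi]; omega)
    rw [sum_insert hi] at this
    linarith
  rcases A.eq_empty_or_nonempty with rfl | hne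
  · refine ⟨∑ i, |l i|, by positivity, by simp, fun i _ => (le_abs_self _).trans
      (single_le_sum (f := fun i => |l i|) (fun _ _ => abs_nonneg _) (mem_univ i)),
      fun h' => absurd h h'.ne, by simp⟩
  obtain ⟨b, hb, hmin⟩ := exists_min_image A l hne
  refine ⟨l b, h0 b hb, hmin, fun i hi => ?_, fun h' => absurd h h'.ne, fun _ _ => ⟨b, hb, rfl⟩⟩
  have hi' : i ∉ A.erase b := fun h' => hi (mem_of_mem_erase h')
  have := hm (insert i (A.erase b)) (by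
    rw [card_insert_of_notMem hi', card_erase_of_mem hb]; have := hne.card_pos; omega)
  rw [sum_insert hi', ← add_sum_erase A l hb] at this
  linarith

theorem lp {l p : n → ℝ} {j : ℕ} {A : Finset n} {θ : ℝ} (hA : #A ≤ j) (h0 : 0 ≤ θ)
    (h1 : ∀ i ∈ A, θ ≤ l i) (h2 : ∀ i ∉ A, l i ≤ θ) (h3 : #A < j → θ = 0)
    (p0 : ∀ i, 0 ≤ p i) (p1 : ∀ i, p i ≤ 1) (ps : ∑ i, p i ≤ j) :
    ∑ i, p i * l i ≤ ∑ i ∈ A, l i := by
  have e : ∀ i, p i * l i ≤ (if i ∈ A then l i - θ else 0) + θ * p i := fun i => by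
    split_ifs with h
    · nlinarith [h1 i h, p1 i]
    · nlinarith [h2 i h, p0 i]
  refine (sum_le_sum fun i _ => e i).trans ?_
  rw [sum_add_distrib, ← mul_sum, sum_ite_mem, univ_inter, sum_sub_distrib, sum_const,
    nsmul_eq_mul]
  rcases hA.lt_or_eq with h | h
  · simp [h3 h]
  · rw [h]
    nlinarith

theorem spec {X : Matrix n n ℂ} (h : X.IsHermitian) : ∃ V ∈ unitaryGroup n ℂ, ∃ l : n → ℝ,
    X = V * diagonal (fun i => (l i : ℂ)) * Vᴴ :=
  ⟨h.eigenvectorUnitary, h.eigenvectorUnitary.2, h.eigenvalues, h.spectral_theorem⟩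

theorem cj {V : Matrix n n ℂ} (hV : V ∈ unitaryGroup n ℂ) (Y : Matrix n n ℂ) :
    Vᴴ * (V * Y * Vᴴ) * V = Y := by
  rw [← Matrix.mul_assoc, ← Matrix.mul_assoc, u1 hV, Matrix.one_mul, Matrix.mul_assoc, u1 hV,
    Matrix.mul_one]

theorem q_self {V : Matrix n n ℂ} (hV : V ∈ unitaryGroup n ℂ) (l : n → ℝ) (A : Finset n) :
    q V A (V * diagonal (fun i => (l i : ℂ)) * Vᴴ) = ∑ i ∈ A, l i := by
  simp [q, cj hV]

theorem k_eq {V : Matrix n n ℂ} (hV : V ∈ unitaryGroup n ℂ) {l : n → ℝ} {j : ℕ} {A : Finset n}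
    {θ : ℝ} (hA : #A ≤ j) (h0 : 0 ≤ θ) (h1 : ∀ i ∈ A, θ ≤ l i) (h2 : ∀ i ∉ A, l i ≤ θ)
    (h3 : #A < j → θ = 0) : IsGreatest {r | ∃ U ∈ unitaryGroup n ℂ, ∃ B : Finset n, #B ≤ j ∧
      r = q U B (V * diagonal (fun i => (l i : ℂ)) * Vᴴ)} (∑ i ∈ A, l i) := by
  refine ⟨⟨V, hV, A, hA, (q_self hV l A).symm⟩, ?_⟩
  rintro _ ⟨U, hU, B, hB, rfl⟩
  set W := Uᴴ * V
  have hW : W ∈ unitaryGroup n ℂ := mul_mem (Unitary.star_mem hU) hV
  have e : Uᴴ * (V * diagonal (fun i => (l i : ℂ)) * Vᴴ) * U =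
      W * diagonal (fun i => (l i : ℂ)) * Wᴴ := by
    simp [W, Matrix.mul_assoc]
  simp only [q, e, dg1]
  rw [sum_comm]
  simp only [← sum_mul]
  refine lp hA h0 h1 h2 h3 (fun i => by positivity) (fun i => ?_) ?_
  · have := col W i
    rw [u1 hW, one_apply_eq] at this
    have h4 : ∑ a, ‖W a i‖ ^ 2 = 1 := by exact_mod_cast this.symm
    exact h4 ▸ sum_le_sum_of_subset_of_nonneg (subset_univ _) fun _ _ _ => by positivity
  · rw [sum_comm]
    simp only [← row, u2 hW, one_apply_eq, Complex.one_re, sum_const, nsmul_eq_mul, mul_one]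
    exact_mod_cast hB

theorem q_le_k {X : Matrix n n ℂ} (h : X.IsHermitian) {U : Matrix n n ℂ}
    (hU : U ∈ unitaryGroup n ℂ) {B : Finset n} {j : ℕ} (hB : #B ≤ j) : q U B X ≤ k j X := by
  obtain ⟨V, hV, l, rfl⟩ := spec h
  obtain ⟨A, hA, θ, h0, h1, h2, h3, -⟩ := opt l j
  exact le_csSup (k_eq hV hA h0 h1 h2 h3).bddAbove ⟨U, hU, B, hB, rfl⟩

theorem k_top {V : Matrix n n ℂ} (hV : V ∈ unitaryGroup n ℂ) (l : n → ℝ) {j : ℕ}
    (hl : ∑ i, l i = 0) (hj : Fintype.card n ≤ j + 1) [Nonempty n] :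
    k j (V * diagonal (fun i => (l i : ℂ)) * Vᴴ) = ∑ i, max (l i) 0 := by
  have hc : #(univ.filter fun i => 0 < l i) ≤ j := by
    by_contra hh
    have : (univ.filter fun i => 0 < l i) = univ :=
      eq_univ_of_card _ (le_antisymm (card_le_univ _) (by omega))
    exact (sum_pos (fun i hi => by rw [← this] at hi; exact (mem_filter.1 hi).2)
      univ_nonempty).ne' hl
  rw [k, (k_eq hV hc le_rfl (fun i hi => (mem_filter.1 hi).2.le)
    (fun i hi => by simpa using hi) (fun _ => rfl)).csSup_eq, sum_filter]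
  exact sum_congr rfl fun i _ => by split_ifs with h <;> simp [h, le_of_lt, not_lt.1]

theorem q_DL {V : Matrix n n ℂ} (hV : V ∈ unitaryGroup n ℂ) (l : n → ℝ) (A : Finset n)
    (L : Matrix n n ℂ) : q V A (DL L (V * diagonal (fun i => (l i : ℂ)) * Vᴴ)) =
      ∑ a ∈ A, ∑ i ∈ Aᶜ, ‖(Vᴴ * L * V) a i‖ ^ 2 * l i -
        ∑ a ∈ A, ∑ i ∈ Aᶜ, ‖(Vᴴ * L * V) i a‖ ^ 2 * l a := by
  set M := Vᴴ * L * V
  set Λ := diagonal (fun i => (l i : ℂ))
  have e : Vᴴ * DL L (V * Λ * Vᴴ) * V = DL M Λ := by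
    have h3 : ∀ Y : Matrix n n ℂ, V * (Vᴴ * Y) = Y := fun Y => by
      rw [← Matrix.mul_assoc, u2 hV, Matrix.one_mul]
    have h4 : ∀ Y : Matrix n n ℂ, Vᴴ * (V * Y) = Y := fun Y => by
      rw [← Matrix.mul_assoc, u1 hV, Matrix.one_mul]
    simp only [DL, M, Matrix.mul_sub, Matrix.sub_mul, Matrix.mul_smul, Matrix.smul_mul,
      Matrix.mul_add, Matrix.add_mul, conjTranspose_mul, conjTranspose_conjTranspose,
      Matrix.mul_assoc, h3, h4, u1 hV, Matrix.mul_one]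
  have e2 : ∀ a, (DL M Λ a a).re = ∑ i, ‖M a i‖ ^ 2 * l i - ∑ i, ‖M i a‖ ^ 2 * l a := by
    intro a
    rw [DL, Matrix.sub_apply, Complex.sub_re, dg1, Matrix.smul_apply, Matrix.add_apply,
      mul_diagonal, diagonal_mul, col, ← sum_mul]
    congr 1
    rw [show (1 / 2 : ℂ) = ((1 / 2 : ℝ) : ℂ) by simp, smul_eq_mul]
    norm_cast
    ring
  simp only [q, e, e2, ← sum_add_sum_compl A, sum_sub_distrib, sum_add_distrib]
  rw [sum_comm (s := A) (t := A)]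
  ring

theorem q_comm {V : Matrix n n ℂ} (hV : V ∈ unitaryGroup n ℂ) (l : n → ℝ) (A : Finset n)
    (H : Matrix n n ℂ) : q V A (-Complex.I • (H * (V * diagonal (fun i => (l i : ℂ)) * Vᴴ) -
      V * diagonal (fun i => (l i : ℂ)) * Vᴴ * H)) = 0 := by
  refine sum_eq_zero fun a _ => ?_
  have h4 : ∀ Y : Matrix n n ℂ, Vᴴ * (V * Y) = Y := fun Y => by
    rw [← Matrix.mul_assoc, u1 hV, Matrix.one_mul]
  have e : Vᴴ * (-Complex.I • (H * (V * diagonal (fun i => (l i : ℂ)) * Vᴴ) -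
      V * diagonal (fun i => (l i : ℂ)) * Vᴴ * H)) * V = -Complex.I •
      (Vᴴ * H * V * diagonal (fun i => (l i : ℂ)) - diagonal (fun i => (l i : ℂ)) * (Vᴴ * H * V)) := by
    simp only [Matrix.mul_sub, Matrix.sub_mul, Matrix.mul_smul, Matrix.smul_mul,
      Matrix.mul_assoc, h4, u1 hV, Matrix.mul_one]
  rw [e, Matrix.smul_apply, Matrix.sub_apply, mul_diagonal, diagonal_mul, mul_comm, sub_self,
    smul_zero, Complex.zero_re]

theorem cpt : IsCompact (unitaryGroup n ℂ : Set (Matrix n n ℂ)) := by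
  refine (isCompact_closedBall (0 : Matrix n n ℂ) 1).of_isClosed_subset ?_ fun U hU => ?_
  · have : (unitaryGroup n ℂ : Set (Matrix n n ℂ)) = {U | U * Uᴴ = 1} := by
      ext U; exact mem_unitaryGroup_iff
    rw [this]
    exact isClosed_eq (by fun_prop) continuous_const
  · exact mem_closedBall_zero_iff.2 (entrywise_sup_norm_bound_of_unitary hU)

theorem leak {ι : Type} [Fintype ι] (L : ι → Matrix n n ℂ)
    (hL : Algebra.adjoin ℂ (Set.range L) = ⊤) : ∃ c > 0, ∃ C ≥ 0, ∀ V ∈ unitaryGroup n ℂ,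
      (∀ m a i, ‖(Vᴴ * L m * V) a i‖ ^ 2 ≤ C) ∧ ∀ A : Finset n, A.Nonempty → Aᶜ.Nonempty →
        c ≤ ∑ m, ∑ a ∈ A, ∑ i ∈ Aᶜ, ‖(Vᴴ * L m * V) i a‖ ^ 2 := by
  have h1 : ∀ A : Finset n, ∃ c > 0, ∀ V ∈ unitaryGroup n ℂ, A.Nonempty → Aᶜ.Nonempty →
      c ≤ ∑ m, ∑ a ∈ A, ∑ i ∈ Aᶜ, ‖(Vᴴ * L m * V) i a‖ ^ 2 := by
    intro A
    obtain ⟨V, hV, hm⟩ := cpt.exists_isMinOn ⟨1, one_mem _⟩
      (f := fun V : Matrix n n ℂ => ∑ m, ∑ a ∈ A, ∑ i ∈ Aᶜ, ‖(Vᴴ * L m * V) i a‖ ^ 2)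
      (Continuous.continuousOn (by fun_prop))
    by_cases h : A.Nonempty ∧ Aᶜ.Nonempty
    swap
    · exact ⟨1, one_pos, fun _ _ a b => absurd ⟨a, b⟩ h⟩
    refine ⟨_, lt_of_le_of_ne (by positivity) fun h0 => ?_, fun W hW _ _ => hm hW⟩
    obtain ⟨⟨a, ha⟩, ⟨b, hb⟩⟩ := h
    have key : ∀ T ∈ Algebra.adjoin ℂ (Set.range L), ∀ a ∈ A, ∀ i ∈ Aᶜ, (Vᴴ * T * V) i a = 0 := by
      intro T hT
      induction hT using Algebra.adjoin_induction with
      | mem T hT =>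
        obtain ⟨m, rfl⟩ := hT
        intro a ha i hi
        have := (sum_eq_zero_iff_of_nonneg fun _ _ => by positivity).1
          ((sum_eq_zero_iff_of_nonneg fun _ _ => by positivity).1
          ((sum_eq_zero_iff_of_nonneg fun _ _ => by positivity).1 h0.symm m (mem_univ m)) a ha) i hi
        simpa using this
      | algebraMap r =>
        intro a ha i hi
        have : i ≠ a := fun h => mem_compl.1 hi (h ▸ ha)
        simp [Algebra.algebraMap_eq_smul_one, u1 hV, this]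
      | add S T _ _ hS hT =>
        intro a ha i hi
        rw [Matrix.mul_add, Matrix.add_mul, Matrix.add_apply, hS a ha i hi, hT a ha i hi,
          add_zero]
      | mul S T _ _ hS hT =>
        intro a ha i hi
        have : Vᴴ * (S * T) * V = Vᴴ * S * V * (Vᴴ * T * V) := by
          simp only [Matrix.mul_assoc]
          rw [← Matrix.mul_assoc V, u2 hV, Matrix.one_mul]
        rw [this, mul_apply]
        refine sum_eq_zero fun x _ => ?_
        by_cases hx : x ∈ A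
        · rw [hS x hx i hi, zero_mul]
        · rw [hT a ha x (mem_compl.2 hx), mul_zero]
    have := key (V * single b a 1 * Vᴴ) (hL ▸ Algebra.mem_top) a ha b hb
    simp [cj hV] at this
  choose c hc h1 using h1
  obtain ⟨A0, -, hA0⟩ := exists_min_image univ c univ_nonempty
  obtain ⟨V, -, hm⟩ := cpt.exists_isMaxOn ⟨1, one_mem _⟩
    (f := fun V : Matrix n n ℂ => ∑ m, ∑ a, ∑ i, ‖(Vᴴ * L m * V) a i‖ ^ 2)
    (Continuous.continuousOn (by fun_prop))
  refine ⟨c A0, hc A0, _, by positivity, fun W hW => ⟨fun m a i => le_trans ?_ (hm hW),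
    fun A a b => (hA0 A (mem_univ A)).trans (h1 A W hW a b)⟩⟩
  refine le_trans ?_ (single_le_sum (f := fun m => ∑ a, ∑ i, ‖(Wᴴ * L m * W) a i‖ ^ 2)
    (fun _ _ => by positivity) (mem_univ m))
  refine le_trans ?_ (single_le_sum (f := fun a => ∑ i, ‖(Wᴴ * L m * W) a i‖ ^ 2)
    (fun _ _ => by positivity) (mem_univ a))
  exact single_le_sum (f := fun i => ‖(Wᴴ * L m * W) a i‖ ^ 2) (fun _ _ => by positivity)
    (mem_univ i)

end Pool.Agent.H.MP_4e5d1f_mp
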