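import Pool.Agent.H.MP_4e5d1f_mp.A

set_option autoImplicit false

open Matrix Finset Filter Topology MeasureTheory
open scoped Matrix.Norms.Elementwise

namespace Pool.Agent.H.MP_4e5d1f_mp

theorem gron {E : Type} [NormedAddCommGroup E] [NormedSpace ℝ E] [CompleteSpace E] {P : Set E}
    {Φ : E → ℝ} {F : ℝ → E → E} {X : ℝ → E} {a b B B' K : ℝ} (hB : 0 ≤ B) (hB' : 0 ≤ B')
    (hX : ContinuousOn X (Set.Icc a b)) (hP : ∀ t ∈ Set.Icc a b, X t ∈ P)
    (hi : IntegrableOn (fun u => F u (X u)) (Set.Icc a b))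
    (he : ∀ t ∈ Set.Icc a b, X t = X a + ∫ u in a..t, F u (X u))
    (hF : ∀ u ∈ Set.Icc a b, ∀ Y Z, ‖F u Y - F u Z‖ ≤ B * ‖Y - Z‖)
    (hl : ∀ Y ∈ P, ∃ ℓ : E →L[ℝ] ℝ, (∀ Z, ℓ Z ≤ B' * ‖Z‖) ∧ ℓ Y = Φ Y ∧ (∀ Z ∈ P, ℓ Z ≤ Φ Z) ∧
      ∀ u ∈ Set.Icc a b, ℓ (F u Y) ≤ K * Φ Y) :
    ∀ t ∈ Set.Icc a b, Φ (X t) ≤ Φ (X a) * Real.exp (K * (t - a)) := by
  have hc : ContinuousOn (fun t => Φ (X t)) (Set.Icc a b) := by
    have : LipschitzOnWith B'.toNNReal Φ P := LipschitzOnWith.of_le_add_mul' B' fun Y hY Z hZ => by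
      obtain ⟨ℓ, h1, h2, h3, -⟩ := hl Y hY
      have := h1 (Y - Z)
      rw [map_sub] at this
      rw [dist_eq_norm]
      linarith [h3 Z hZ]
    exact this.continuousOn.comp hX hP
  intro t ht
  rw [← gronwallBound_ε0]
  refine le_gronwallBound_of_liminf_deriv_right_le (f' := fun x => K * Φ (X x)) hc ?_ le_rfl
    (fun x _ => by simp) t ht
  intro x hx r hr
  have hx' : x ∈ Set.Icc a b := Set.Ico_subset_Icc_self hx
  obtain ⟨ε, hε, hεr⟩ : ∃ ε > 0, K * Φ (X x) + 3 * ε < r :=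
    ⟨(r - K * Φ (X x)) / 4, by linarith, by linarith⟩
  have e1 : ∀ᶠ u in 𝓝[Set.Icc a b] x,
      K * Φ (X u) < K * Φ (X x) + ε ∧ B' * B * ‖X u - X x‖ < ε := by
    refine Eventually.and ?_ ?_
    · exact ((hc x hx').const_smul K).eventually (gt_mem_nhds (by simpa using hε))
    · exact ((((hX x hx').sub continuousWithinAt_const).norm).const_smul (B' * B)).eventually
        (gt_mem_nhds (by simpa using hε))
  obtain ⟨δ, hδ, e2⟩ := Metric.eventually_nhds_iff.1 (eventually_nhdsWithin_iff.1 e1)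
  refine Eventually.frequently ?_
  filter_upwards [Ioo_mem_nhdsGT (lt_min hx.2 (lt_add_of_pos_right x hδ))] with z hz
  have z1 := hz.1
  have z2 := hz.2.trans_le (min_le_left _ _)
  have z3 := hz.2.trans_le (min_le_right _ _)
  have hz' : z ∈ Set.Icc a b := ⟨hx.1.trans z1.le, z2.le⟩
  have ii : ∀ c ∈ Set.Icc a b, ∀ d ∈ Set.Icc a b,
      IntervalIntegrable (fun u => F u (X u)) volume c d := fun c hc d hd =>
    (hi.mono_set (Set.uIcc_subset_Icc hc hd)).intervalIntegrable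
  have ha : a ∈ Set.Icc a b := ⟨le_rfl, hx.1.trans hx.2.le⟩
  obtain ⟨ℓ, h1, h2, h3, h4⟩ := hl _ (hP z hz')
  have e3 : ℓ (X z) - ℓ (X x) = ∫ u in x..z, ℓ (F u (X u)) := by
    rw [← map_sub, ℓ.intervalIntegral_comp_comm (ii x hx' z hz'),
      ← intervalIntegral.integral_interval_sub_left (ii a ha z hz') (ii a ha x hx'), he z hz',
      he x hx', add_sub_add_left_eq_sub]
  have e4 : ∫ u in x..z, ℓ (F u (X u)) ≤ ∫ _ in x..z, (K * Φ (X x) + 3 * ε) := by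
    refine intervalIntegral.integral_mono_on z1.le
      ⟨ℓ.integrable_comp (ii x hx' z hz').1, ℓ.integrable_comp (ii x hx' z hz').2⟩
      intervalIntegrable_const fun u hu => ?_
    have hu' : u ∈ Set.Icc a b := ⟨hx.1.trans hu.1, hu.2.trans z2.le⟩
    have a1 := e2 (y := u) (by rw [Real.dist_eq, abs_lt]; constructor <;> linarith [hu.1, hu.2]) hu'
    have a2 := e2 (y := z) (by rw [Real.dist_eq, abs_lt]; constructor <;> linarith) hz'
    have a3 := h1 (F u (X u) - F u (X z))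
    have a4 := mul_le_mul_of_nonneg_left (hF u hu' (X u) (X z)) hB'
    have a5 := mul_le_mul_of_nonneg_left (norm_sub_le_norm_sub_add_norm_sub (X u) (X x) (X z))
      (mul_nonneg hB' hB)
    rw [norm_sub_rev (X x)] at a5
    rw [map_sub] at a3
    nlinarith [h4 u hu', a1.2, a2.1, a2.2]
  rw [intervalIntegral.integral_const, smul_eq_mul] at e4
  rw [inv_mul_lt_iff₀ (sub_pos.2 z1)]
  nlinarith [h3 _ (hP x hx')]

variable {n : Type} [Fintype n] [DecidableEq n] {ι : Type} [Fintype ι]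

/-- driven Lindbladian -/
noncomputable def Lind (L : ι → Matrix n n ℂ) (H X : Matrix n n ℂ) : Matrix n n ℂ :=
  -Complex.I • (H * X - X * H) + ∑ m, DL (L m) X

theorem nmul (A B : Matrix n n ℂ) : ‖A * B‖ ≤ Fintype.card n * (‖A‖ * ‖B‖) := by
  refine (Matrix.norm_le_iff (by positivity)).2 fun i j => ?_
  rw [mul_apply]
  refine (norm_sum_le _ _).trans ((sum_le_card_nsmul _ _ (‖A‖ * ‖B‖) fun x _ => ?_).trans ?_)
  · rw [norm_mul]
    exact mul_le_mul (norm_entry_le_entrywise_sup_norm _) (norm_entry_le_entrywise_sup_norm _)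
      (norm_nonneg _) (norm_nonneg _)
  · simp

/-- `q` as a linear functional -/
noncomputable def qL (U : Matrix n n ℂ) (A : Finset n) : Matrix n n ℂ →L[ℝ] ℝ :=
  LinearMap.toContinuousLinearMap
    { toFun := q U A
      map_add' := fun X Y => by simp [q, Matrix.mul_add, Matrix.add_mul, sum_add_distrib]
      map_smul' := fun c X => by simp [q, mul_sum] }

theorem qL_apply (U : Matrix n n ℂ) (A : Finset n) (X : Matrix n n ℂ) : qL U A X = q U A X := rfl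

theorem q_bd {U : Matrix n n ℂ} (hU : U ∈ unitaryGroup n ℂ) (A : Finset n) (X : Matrix n n ℂ) :
    q U A X ≤ (Fintype.card n : ℝ) ^ 3 * ‖X‖ := by
  have h1 := entrywise_sup_norm_bound_of_unitary hU
  have h2 : ‖Uᴴ * X * U‖ ≤ (Fintype.card n : ℝ) ^ 2 * ‖X‖ := by
    refine (nmul _ _).trans ?_
    have := nmul Uᴴ X
    rw [norm_conjTranspose] at this
    calc (Fintype.card n : ℝ) * (‖Uᴴ * X‖ * ‖U‖)
        ≤ Fintype.card n * (Fintype.card n * (1 * ‖X‖) * 1) := by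
          gcongr
          exact this.trans (by gcongr)
      _ = _ := by ring
  refine (sum_le_card_nsmul _ _ ((Fintype.card n : ℝ) ^ 2 * ‖X‖) fun a _ => ?_).trans ?_
  · exact (Complex.re_le_norm _).trans ((norm_entry_le_entrywise_sup_norm _).trans h2)
  · rw [nsmul_eq_mul, pow_succ' _ 2, mul_assoc]
    gcongr
    exact card_le_univ A

theorem step {L : ι → Matrix n n ℂ} {c C : ℝ} (hC : 0 ≤ C) (hc : 0 < c) {V : Matrix n n ℂ}
    (hV : V ∈ unitaryGroup n ℂ) (h1 : ∀ m a i, ‖(Vᴴ * L m * V) a i‖ ^ 2 ≤ C)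
    (h2 : ∀ A : Finset n, A.Nonempty → Aᶜ.Nonempty →
      c ≤ ∑ m, ∑ a ∈ A, ∑ i ∈ Aᶜ, ‖(Vᴴ * L m * V) i a‖ ^ 2) (l : n → ℝ) {j : ℕ}
    (hj : j + 1 < Fintype.card n) {X : Matrix n n ℂ}
    (hX : X = V * diagonal (fun i => (l i : ℂ)) * Vᴴ) (hh : X.IsHermitian) :
    ∃ A : Finset n, #A ≤ j + 1 ∧ q V A X = k (j + 1) X ∧ ∀ H, q V A (Lind L H X) ≤
      Fintype.card ι * Fintype.card n * C * (∑ i, max (l i) 0 - k (j + 1) X) -
        c * (k (j + 1) X - k j X) := by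
  obtain ⟨A, hA, θ, t0, t1, t2, t3, t4⟩ := opt l (j + 1)
  have e1 : k (j + 1) X = ∑ i ∈ A, l i := by rw [k, hX, (k_eq hV hA t0 t1 t2 t3).csSup_eq]
  have e2 : ∀ B, q V B X = ∑ i ∈ B, l i := fun B => by rw [hX, q_self hV]
  refine ⟨A, hA, by rw [e1, e2], fun H => ?_⟩
  have e3 : k (j + 1) X - k j X ≤ θ := by
    rcases hA.lt_or_eq with h | h
    · have := q_le_k hh hV (Nat.le_of_lt_succ h)
      rw [e2] at this
      linarith
    · obtain ⟨i, hi, rfl⟩ := t4 (card_pos.1 (by omega)) h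
      have := q_le_k hh hV (B := A.erase i) (j := j) (by rw [card_erase_of_mem hi]; omega)
      rw [e2] at this
      rw [e1, ← add_sum_erase A l hi]
      linarith
  have e4 : ∑ i, max (l i) 0 - k (j + 1) X = ∑ i ∈ Aᶜ, max (l i) 0 := by
    rw [← sum_add_sum_compl A, e1, sum_congr rfl fun i hi => max_eq_left (t0.trans (t1 i hi))]
    ring
  have e5 : c * θ ≤ ∑ m, ∑ a ∈ A, ∑ i ∈ Aᶜ, ‖(Vᴴ * L m * V) i a‖ ^ 2 * l a := by
    rcases A.eq_empty_or_nonempty with h | h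
    · simp [t3 (by simp [h]), h]
    · refine (mul_le_mul_of_nonneg_right (h2 A h (card_pos.1 (by
        rw [card_compl]; omega))) t0).trans ?_
      simp only [sum_mul]
      gcongr with m _ a ha i _
      exact t1 a ha
  have e6 : ∑ m, ∑ a ∈ A, ∑ i ∈ Aᶜ, ‖(Vᴴ * L m * V) a i‖ ^ 2 * l i ≤
      Fintype.card ι * Fintype.card n * C * ∑ i ∈ Aᶜ, max (l i) 0 := by
    have p : 0 ≤ ∑ i ∈ Aᶜ, max (l i) 0 := sum_nonneg fun _ _ => le_max_right _ _
    calc _ ≤ ∑ _m : ι, ∑ _a ∈ A, C * ∑ i ∈ Aᶜ, max (l i) 0 := by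
          gcongr with m _ a _
          rw [mul_sum]
          exact sum_le_sum fun i _ =>
            (mul_le_mul_of_nonneg_left (le_max_left _ 0) (by positivity)).trans
            (mul_le_mul_of_nonneg_right (h1 m a i) (le_max_right _ _))
      _ ≤ _ := by
          simp only [sum_const, nsmul_eq_mul, card_univ, mul_assoc]
          gcongr
          exact card_le_univ A
  rw [Lind, ← qL_apply, map_add, map_sum, e4]
  simp only [qL_apply, hX, q_comm hV, q_DL hV, sum_sub_distrib]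
  rw [← hX]
  nlinarith

theorem kS {V : Matrix n n ℂ} (hV : V ∈ unitaryGroup n ℂ) (l : n → ℝ) (j : ℕ) :
    0 ≤ k j (V * diagonal (fun i => (l i : ℂ)) * Vᴴ) ∧
    k j (V * diagonal (fun i => (l i : ℂ)) * Vᴴ) ≤ ∑ i, max (l i) 0 ∧
    (j = 0 → k j (V * diagonal (fun i => (l i : ℂ)) * Vᴴ) = 0) := by
  obtain ⟨A, hA, θ, t0, t1, t2, t3, -⟩ := opt l j
  rw [k, (k_eq hV hA t0 t1 t2 t3).csSup_eq]
  refine ⟨sum_nonneg fun i hi => t0.trans (t1 i hi), (sum_le_sum fun i _ => le_max_left _ 0).trans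
    (sum_le_sum_of_subset_of_nonneg (subset_univ _) fun _ _ _ => le_max_right _ _), ?_⟩
  rintro rfl
  rw [card_eq_zero.1 (Nat.le_zero.1 hA), sum_empty]

theorem tr {V : Matrix n n ℂ} (hV : V ∈ unitaryGroup n ℂ) (l : n → ℝ) :
    (V * diagonal (fun i => (l i : ℂ)) * Vᴴ).trace = ((∑ i, l i : ℝ) : ℂ) := by
  rw [trace_mul_cycle, u1 hV, Matrix.one_mul, trace_diagonal, Complex.ofReal_sum]

theorem lyap (L : ι → Matrix n n ℂ) (hL : Algebra.adjoin ℂ (Set.range L) = ⊤)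
    (hd : 2 ≤ Fintype.card n) : ∃ γ > 0, ∃ W > 0, ∃ Φ : Matrix n n ℂ → ℝ, ∃ B ≥ 0,
      (∀ V ∈ unitaryGroup n ℂ, ∀ l : n → ℝ, ∑ i, l i = 0 →
        ∑ i, max (l i) 0 ≤ Φ (V * diagonal (fun i => (l i : ℂ)) * Vᴴ) ∧
        Φ (V * diagonal (fun i => (l i : ℂ)) * Vᴴ) ≤ W * ∑ i, max (l i) 0) ∧
      ∀ Y : Matrix n n ℂ, Y.IsHermitian → Y.trace = 0 → ∃ ℓ : Matrix n n ℂ →L[ℝ] ℝ,
        (∀ Z, ℓ Z ≤ B * ‖Z‖) ∧ ℓ Y = Φ Y ∧ (∀ Z : Matrix n n ℂ, Z.IsHermitian → ℓ Z ≤ Φ Z) ∧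
          ∀ H, ℓ (Lind L H Y) ≤ -γ * Φ Y := by
  obtain ⟨c, hc, C, hC, hk⟩ := leak L hL
  obtain ⟨N, hN⟩ : ∃ N, Fintype.card n = N + 2 := ⟨_, (Nat.sub_add_cancel hd).symm⟩
  have : Nonempty n := Fintype.card_pos_iff.1 (by omega)
  set C' : ℝ := Fintype.card ι * Fintype.card n * C
  have hC' : 0 ≤ C' := by positivity
  set r := (C' + c) / c
  have hr : 1 ≤ r := by rw [le_div_iff₀ hc]; linarith
  have hr' : c * r = C' + c := mul_div_cancel₀ _ hc.ne'
  have r0 : ∀ j, 0 < r ^ j := fun j => by positivity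
  set W := ∑ j ∈ range (N + 1), r ^ j
  have hW : 0 < W := sum_pos (fun j _ => r0 j) nonempty_range_add_one
  have up : ∀ V ∈ unitaryGroup n ℂ, ∀ l : n → ℝ, ∑ j ∈ range (N + 1),
      r ^ j * k (j + 1) (V * diagonal (fun i => (l i : ℂ)) * Vᴴ) ≤ W * ∑ i, max (l i) 0 := by
    intro V hV l
    rw [sum_mul]
    exact sum_le_sum fun j _ => mul_le_mul_of_nonneg_left (kS hV l _).2.1 (r0 j).le
  refine ⟨c / W, by positivity, W, hW, fun X => ∑ j ∈ range (N + 1), r ^ j * k (j + 1) X,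
    W * (Fintype.card n : ℝ) ^ 3, by positivity, fun V hV l hl => ⟨?_, up V hV l⟩,
    fun Y hY h0 => ?_⟩
  · beta_reduce
    rw [sum_range_succ, k_top hV l hl hN.le]
    have p : 0 ≤ ∑ i, max (l i) 0 := sum_nonneg fun _ _ => le_max_right _ _
    have := sum_nonneg (s := range N) fun j _ => mul_nonneg (r0 j).le (kS hV l (j + 1)).1
    nlinarith [one_le_pow₀ (n := N) hr]
  obtain ⟨V, hV, l, e⟩ := spec hY
  have hl : ∑ i, l i = 0 := by
    rw [e, tr hV] at h0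
    exact_mod_cast h0
  have := fun j : Fin (N + 1) => step hC hc hV (hk V hV).1 (hk V hV).2 l (j := j) (by omega) e hY
  choose A a1 a2 a3 using this
  refine ⟨∑ j : Fin (N + 1), r ^ (j : ℕ) • qL V (A j), fun Z => ?_, ?_, fun Z hZ => ?_,
    fun H => ?_⟩ <;>
    simp only [_root_.sum_apply, _root_.smul_apply, qL_apply, smul_eq_mul]
  · rw [mul_assoc, sum_mul, sum_range]
    exact sum_le_sum fun j _ => mul_le_mul_of_nonneg_left (q_bd hV _ _) (r0 j).le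
  · simp only [a2, sum_range]
  · rw [sum_range]
    exact sum_le_sum fun j _ => mul_le_mul_of_nonneg_left (q_le_k hZ hV (a1 j)) (r0 j).le
  set S := ∑ i, max (l i) 0
  have t := sum_range_sub (fun j => c * r ^ j * (S - k j Y)) (N + 1)
  have t1 : k (N + 1) Y = S := by rw [e, k_top hV l hl hN.le]
  have t2 : k 0 Y = 0 := by rw [e, (kS hV l 0).2.2 rfl]
  rw [t1, t2, sum_range] at t
  have t3 := up V hV l
  rw [← e] at t3
  calc _ ≤ _ := sum_le_sum fun j _ => mul_le_mul_of_nonneg_left (a3 j H) (r0 j).le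
    _ = _ := sum_congr rfl fun j _ => ?_
    _ = _ := t
    _ ≤ _ := ?_
  · rw [pow_succ]
    linear_combination (-(r ^ (j : ℕ)) * (S - k (j + 1) Y)) * hr'
  · have := mul_le_mul_of_nonneg_left t3 (div_pos hc hW).le
    rw [← mul_assoc, div_mul_cancel₀ _ hW.ne'] at this
    simp only [sub_self, mul_zero, pow_zero, mul_one, sub_zero, zero_sub]
    linarith

end Pool.Agent.H.MP_4e5d1f_mp
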