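import Pool.Agent.H.MP_4e5d1f_mp.B

set_option autoImplicit false

open Matrix Finset Filter Topology MeasureTheory
open scoped Matrix.Norms.Elementwise MatrixOrder ComplexOrder

namespace Pool.Agent.H.MP_4e5d1f_mp

variable {n : Type} [Fintype n] [DecidableEq n] {ι : Type} [Fintype ι]

noncomputable local instance en : ENormedAddCommMonoid (Matrix n n ℂ) :=
  inferInstanceAs (ENormedAddCommMonoid (n → n → ℂ))

local instance pm : TopologicalSpace.PseudoMetrizableSpace (Matrix n n ℂ) :=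
  inferInstanceAs (TopologicalSpace.PseudoMetrizableSpace (n → n → ℂ))

/-- trace norm -/
noncomputable def tn (X : Matrix n n ℂ) : ℝ := (CFC.sqrt (Xᴴ * X)).trace.re

theorem tn_eq {V : Matrix n n ℂ} (hV : V ∈ unitaryGroup n ℂ) (l : n → ℝ) (hl : ∑ i, l i = 0) :
    tn (V * diagonal (fun i => (l i : ℂ)) * Vᴴ) = 2 * ∑ i, max (l i) 0 := by
  have h4 : ∀ Y : Matrix n n ℂ, Vᴴ * (V * Y) = Y := fun Y => by
    rw [← Matrix.mul_assoc, u1 hV, Matrix.one_mul]
  have h5 : ∀ (f g : n → ℂ) (Y : Matrix n n ℂ), diagonal f * (diagonal g * Y) =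
      diagonal (fun i => f i * g i) * Y := fun f g Y => by
    rw [← Matrix.mul_assoc, diagonal_mul_diagonal]
  have h6 : 0 ≤ V * diagonal (fun i => ((|l i| : ℝ) : ℂ)) * Vᴴ :=
    Matrix.nonneg_iff_posSemidef.2 ((PosSemidef.diagonal fun i => by
      simp).mul_mul_conjTranspose_same V)
  rw [tn, CFC.sqrt_unique (b := V * diagonal (fun i => ((|l i| : ℝ) : ℂ)) * Vᴴ) _ h6, tr hV,
    Complex.ofReal_re, mul_sum, ← add_zero (∑ i, |l i|), ← hl, ← sum_add_distrib]
  · exact sum_congr rfl fun i _ => by cases le_total 0 (l i) <;> simp [*, abs_of_nonneg,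
      abs_of_nonpos, two_mul]
  · simp only [conjTranspose_mul, conjTranspose_conjTranspose, Matrix.mul_assoc, h4, h5,
      diagonal_conjTranspose]
    congr 3
    ext i
    simp only [Pi.star_apply, Complex.star_def, Complex.conj_ofReal]
    norm_cast
    exact abs_mul_abs_self _

theorem Lind_sub (L : ι → Matrix n n ℂ) (H X Y : Matrix n n ℂ) :
    Lind L H X - Lind L H Y = Lind L H (X - Y) := by
  simp only [Lind, DL, Matrix.mul_sub, Matrix.sub_mul, smul_sub, smul_add, sum_sub_distrib,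
    sum_add_distrib]
  abel

theorem Lind_star (L : ι → Matrix n n ℂ) {H : Matrix n n ℂ} (h : H.IsHermitian)
    (X : Matrix n n ℂ) : (Lind L H X)ᴴ = Lind L H Xᴴ := by
  simp [Lind, DL, conjTranspose_sum, h.eq, Matrix.mul_assoc, add_comm, smul_sub]

theorem Lind_tr (L : ι → Matrix n n ℂ) (H X : Matrix n n ℂ) : (Lind L H X).trace = 0 := by
  have : ∀ m, (DL (L m) X).trace = 0 := fun m => by
    rw [DL, trace_sub, trace_smul, trace_add, trace_mul_comm X, trace_mul_cycle, smul_eq_mul]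
    ring
  simp [Lind, trace_sum, this, trace_mul_comm X H]

theorem Lind_bd (L : ι → Matrix n n ℂ) (M : ℝ) : ∃ B ≥ 0, ∀ H : Matrix n n ℂ, ‖H‖ ≤ M →
    ∀ Y, ‖Lind L H Y‖ ≤ B * ‖Y‖ := by
  let D : Matrix n n ℂ →ₗ[ℂ] Matrix n n ℂ :=
    { toFun := fun Y => ∑ m, DL (L m) Y
      map_add' := fun X Y => by
        simp only [DL, Matrix.mul_add, Matrix.add_mul, smul_add, sum_sub_distrib, sum_add_distrib]
        abel
      map_smul' := fun c X => by simp [DL, smul_sum, smul_sub, smul_comm c] }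
  obtain ⟨C, hC, h⟩ := (LinearMap.toContinuousLinearMap D).bound
  refine ⟨2 * Fintype.card n * |M| + C, by positivity, fun H hH Y => ?_⟩
  refine (norm_add_le _ _).trans ?_
  have h1 : ‖∑ m, DL (L m) Y‖ ≤ C * ‖Y‖ := h Y
  have h2 := nmul H Y
  have h3 := nmul Y H
  have h4 := norm_sub_le (H * Y) (Y * H)
  have h5 : (Fintype.card n : ℝ) * (‖H‖ * ‖Y‖) ≤ Fintype.card n * (|M| * ‖Y‖) := by
    gcongr
    exact hH.trans (le_abs_self _)
  rw [norm_smul, norm_neg, Complex.norm_I]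
  nlinarith

theorem intg (L : ι → Matrix n n ℂ) {H X : ℝ → Matrix n n ℂ} {a b M : ℝ}
    (h1 : ∀ i j, AEMeasurable (fun t => H t i j) (volume.restrict (Set.Icc a b)))
    (h2 : ∀ u ∈ Set.Icc a b, ‖H u‖ ≤ M) (hX : ContinuousOn X (Set.Icc a b)) :
    IntegrableOn (fun u => Lind L (H u) (X u)) (Set.Icc a b) := by
  obtain ⟨B, hB, h⟩ := Lind_bd L M
  refine Integrable.of_eval fun i => Integrable.of_eval fun j => ?_
  have c : Continuous fun p : (n → n → ℂ) × (n → n → ℂ) => Lind L p.1 p.2 i j := by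
    have : Continuous fun p : Matrix n n ℂ × Matrix n n ℂ => Lind L p.1 p.2 i j := by
      unfold Lind DL
      fun_prop
    exact this
  have m : AEMeasurable (fun t (i : n) (j : n) => H t i j) (volume.restrict (Set.Icc a b)) :=
    aemeasurable_pi_lambda _ fun i => aemeasurable_pi_lambda _ fun j => h1 i j
  have m' : AEMeasurable (fun t (i : n) (j : n) => X t i j) (volume.restrict (Set.Icc a b)) :=
    aemeasurable_pi_lambda _ fun i => aemeasurable_pi_lambda _ fun j =>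
      ((continuous_apply_apply i j).comp_continuousOn hX).aemeasurable measurableSet_Icc
  refine Integrable.mono' ((hX.norm.const_smul B).integrableOn_Icc)
    (c.measurable.comp_aemeasurable (m.prodMk m')).aestronglyMeasurable ?_
  filter_upwards [ae_restrict_mem measurableSet_Icc] with u hu using
    (norm_entry_le_entrywise_sup_norm _).trans (h _ (h2 u hu) _)

theorem main (L : ι → Matrix n n ℂ) (hL : Algebra.adjoin ℂ (Set.range L) = ⊤)
    (hd : 2 ≤ Fintype.card n) : ∃ K > 0, ∃ γ > 0, ∀ (H X : ℝ → Matrix n n ℂ) (a b M : ℝ),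
      a ≤ b → (∀ u ∈ Set.Icc a b, (H u).IsHermitian ∧ ‖H u‖ ≤ M) → ContinuousOn X (Set.Icc a b) →
      IntegrableOn (fun u => Lind L (H u) (X u)) (Set.Icc a b) →
      (∀ t ∈ Set.Icc a b, X t = X a + ∫ u in a..t, Lind L (H u) (X u)) → (X a).IsHermitian →
      (X a).trace = 0 → tn (X b) ≤ K * Real.exp (-γ * (b - a)) * tn (X a) := by
  obtain ⟨γ, hγ, W, hW, Φ, B', hB', p1, p2⟩ := lyap L hL hd
  refine ⟨W, hW, γ, hγ, fun H X a b M hab hH hX hi he h1 h2 => ?_⟩
  obtain ⟨B, hB, h⟩ := Lind_bd L M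
  have hF : ∀ u ∈ Set.Icc a b, ∀ Y Z, ‖Lind L (H u) Y - Lind L (H u) Z‖ ≤ B * ‖Y - Z‖ :=
    fun u hu Y Z => by rw [Lind_sub]; exact h _ (hH u hu).2 _
  have ha : a ∈ Set.Icc a b := ⟨le_rfl, hab⟩
  have hb : b ∈ Set.Icc a b := ⟨hab, le_rfl⟩
  have ii : ∀ t ∈ Set.Icc a b, IntervalIntegrable (fun u => Lind L (H u) (X u)) volume a t :=
    fun t ht => (hi.mono_set (Set.uIcc_subset_Icc ha ht)).intervalIntegrable
  have t0 : ∀ t ∈ Set.Icc a b, (X t).trace = 0 := fun t ht => by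
    have : ∫ u in a..t, (Lind L (H u) (X u)).trace = (∫ u in a..t, Lind L (H u) (X u)).trace :=
      (LinearMap.toContinuousLinearMap (traceLinearMap n ℝ ℂ)).intervalIntegral_comp_comm (ii t ht)
    rw [he t ht, trace_add, h2, ← this]
    simp [Lind_tr]
  let S : Matrix n n ℂ →L[ℝ] Matrix n n ℂ := LinearMap.toContinuousLinearMap
    { toFun := fun Y => Y - Yᴴ
      map_add' := fun X Y => by simp only [conjTranspose_add]; abel
      map_smul' := fun c X => by simp [smul_sub] }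
  have hS : ∀ Y, S Y = Y - Yᴴ := fun _ => rfl
  have s1 : ∀ u ∈ Set.Icc a b, S (Lind L (H u) (X u)) = Lind L (H u) (S (X u)) := fun u hu => by
    rw [hS, hS, Lind_star L (hH u hu).1, Lind_sub]
  have t1 : ∀ t ∈ Set.Icc a b, (X t).IsHermitian := fun t ht => by
    have := gron (P := Set.univ) (Φ := norm) (F := fun u => Lind L (H u)) (X := fun u => S (X u))
      (K := B) hB zero_le_one (S.continuous.comp_continuousOn hX) (fun _ _ => trivial)
      (IntegrableOn.congr_fun (S.integrable_comp hi) s1 measurableSet_Icc) (fun t ht => by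
        have e : ∫ u in a..t, S (Lind L (H u) (X u)) = S (∫ u in a..t, Lind L (H u) (X u)) :=
          S.intervalIntegral_comp_comm (ii t ht)
        rw [he t ht, map_add, ← e,
          intervalIntegral.integral_congr fun u hu => s1 u (Set.uIcc_subset_Icc ha ht hu)]) hF
      (fun Y _ => by
        obtain ⟨g, g1, g2⟩ := exists_dual_vector'' ℝ Y
        have g3 : ∀ Z, g Z ≤ ‖Z‖ := fun Z => (le_abs_self _).trans
          ((g.le_opNorm Z).trans (mul_le_of_le_one_left (norm_nonneg _) g1))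
        exact ⟨g, fun Z => by simpa using g3 Z, g2, fun Z _ => g3 Z,
          fun u hu => (g3 _).trans (h _ (hH u hu).2 _)⟩) t ht
    rw [hS (X a), h1.eq, sub_self, norm_zero, zero_mul, norm_le_zero_iff, hS, sub_eq_zero] at this
    exact this.symm
  have := gron (P := {Y | Y.IsHermitian ∧ Y.trace = 0}) (Φ := Φ) (F := fun u => Lind L (H u))
    (K := -γ) hB hB' hX (fun t ht => ⟨t1 t ht, t0 t ht⟩) hi he hF (fun Y hY => by
      obtain ⟨ℓ, g1, g2, g3, g4⟩ := p2 Y hY.1 hY.2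
      exact ⟨ℓ, g1, g2, fun Z hZ => g3 Z hZ.1, fun u _ => g4 _⟩) b hb
  obtain ⟨V, hV, l, e⟩ := spec h1
  obtain ⟨V', hV', l', e'⟩ := spec (t1 b hb)
  have hl : ∑ i, l i = 0 := by
    rw [e, tr hV] at h2
    exact_mod_cast h2
  have hl' : ∑ i, l' i = 0 := by
    have := t0 b hb
    rw [e', tr hV'] at this
    exact_mod_cast this
  rw [e, e'] at this
  rw [e, e', tn_eq hV l hl, tn_eq hV' l' hl']
  have q1 := (p1 V' hV' l' hl').1
  have q2 := mul_le_mul_of_nonneg_right (p1 V hV l hl).2 (Real.exp_pos (-γ * (b - a))).le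
  nlinarith

theorem main' (L : ι → Matrix n n ℂ) (hL : Algebra.adjoin ℂ (Set.range L) = ⊤)
    (hd : 2 ≤ Fintype.card n) : ∃ K > 0, ∃ γ > 0, ∀ (H X Y : ℝ → Matrix n n ℂ) (a b M : ℝ),
      a ≤ b → (∀ u ∈ Set.Icc a b, (H u).IsHermitian ∧ ∀ i j, ‖H u i j‖ ≤ M) →
      (∀ i j, AEMeasurable (fun t => H t i j) (volume.restrict (Set.Icc a b))) →
      ContinuousOn X (Set.Icc a b) → ContinuousOn Y (Set.Icc a b) → ∀ ρ σ : Matrix n n ℂ,
      (∀ t ∈ Set.Icc a b, ∀ i j, X t i j = ρ i j + ∫ u in a..t, Lind L (H u) (X u) i j) →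
      (∀ t ∈ Set.Icc a b, ∀ i j, Y t i j = σ i j + ∫ u in a..t, Lind L (H u) (Y u) i j) →
      (ρ - σ).IsHermitian → (ρ - σ).trace = 0 →
      tn (X b - Y b) ≤ K * Real.exp (-γ * (b - a)) * tn (ρ - σ) := by
  obtain ⟨K, hK, γ, hγ, h⟩ := main L hL hd
  refine ⟨K, hK, γ, hγ, fun H X Y a b M hab h1 h2 hX hY ρ σ eX eY p1 p2 => ?_⟩
  have ha : a ∈ Set.Icc a b := ⟨le_rfl, hab⟩
  have h3 : ∀ u ∈ Set.Icc a b, ‖H u‖ ≤ |M| := fun u hu =>
    (Matrix.norm_le_iff (abs_nonneg M)).2 fun i j => ((h1 u hu).2 i j).trans (le_abs_self M)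
  have e : X a - Y a = ρ - σ := by
    ext i j
    simp [eX a ha, eY a ha]
  have ii : ∀ Z : ℝ → Matrix n n ℂ, ContinuousOn Z (Set.Icc a b) → ∀ t ∈ Set.Icc a b,
      IntegrableOn (fun u => Lind L (H u) (Z u)) (Set.Ioc a t) := fun Z hZ t ht =>
    (intg L h2 h3 hZ).mono_set (Set.Ioc_subset_Icc_self.trans (Set.Icc_subset_Icc_right ht.2))
  have := h H (fun t => X t - Y t) a b |M| hab (fun u hu => ⟨(h1 u hu).1, h3 u hu⟩) (hX.sub hY)
    (intg L h2 h3 (hX.sub hY)) (fun t ht => ?_) (e ▸ p1) (e ▸ p2)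
  · rwa [e] at this
  ext i j
  have i1 := ii _ (hX.sub hY) t ht
  have e1 : (∫ u in Set.Ioc a t, Lind L (H u) (X u - Y u)) i j =
      ∫ u in Set.Ioc a t, Lind L (H u) (X u - Y u) i j := by
    have a1 : (∫ u in Set.Ioc a t, Lind L (H u) (X u - Y u)) i =
      ∫ u in Set.Ioc a t, Lind L (H u) (X u - Y u) i := eval_integral (fun i => i1.eval i) i
    exact (congrFun a1 j).trans (eval_integral (fun j => (i1.eval i).eval j) j)
  rw [e, Matrix.add_apply, Matrix.sub_apply, Matrix.sub_apply, eX t ht, eY t ht]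
  simp only [intervalIntegral.integral_of_le ht.1]
  rw [e1, add_sub_add_comm, ← integral_sub (((ii X hX t ht).eval i).eval j)
    (((ii Y hY t ht).eval i).eval j)]
  simp only [← Lind_sub, Matrix.sub_apply]

end Pool.Agent.H.MP_4e5d1f_mp
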